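import Pool.Agent.Q57.ZP.TorI
import Pool.Agent.Q57.ZP.Par

/-!
# MP_c95b3b_ag: Zilber's conjecture for families of subvarieties of tori with algebraic parameters, whose
coefficients are multiplied by arbitrary units of integral closures

**Families.** Let `A_1, …, A_m ⊂ ℤ^n` be arbitrary finite nonempty sets of exponents, and let
`c_jβ ∈ ℂ[t]` be nonzero polynomials, `β ∈ A_j`. For `t ∈ ℂ` and numbers `w_jβ ≠ 0`, one for
every monomial, let `X_{t,w} ⊂ (ℂ^×)^n` be the algebraic set defined by the Laurent polynomials
`f_j = ∑_β w_jβ c_jβ(t) x^β`, `j ≤ m` (`member`).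

**Multipliers.** Let `F` and `B` be finite sets of complex numbers, and let `R_t` be the ring generated
by `F`, `t` and the numbers `1 / (t - b)`, `b ∈ B`. The multipliers `w_jβ` are arbitrary units of the
integral closure of `R_t` in `ℂ`, independent of each other. Examples: all units of the ring of all
algebraic integers (so algebraic numbers of arbitrary degrees), in particular all roots of unity; if
`1 / p ∈ F` for the primes `p ∈ S`, all algebraic numbers of any degree whose prime factorisation contains
only primes above `S`; all fractional powers `(t - b) ^ (k / l)`, `b ∈ B`, and their products.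

**Tropicalization.** For a rational number `α` the tropicalization of the family at `t = α` is the set
`Trop_α` of the `w ∈ ℚ^n` such that for all `j` the minimum of the numbers
`ord_α (c_jβ) + β · w`, `β ∈ A_j`, is attained at least twice.

**Theorem.** Let `α_1, …, α_M` be rational numbers, not in `B`, and suppose that no linear subspace of
`ℚ^n` of dimension less than `r` meets `N` of the sets `Trop_{α_l}`.

1. If the `α_l` are distinct and `N + 2 d ≤ M`, then for all but finitely many `t` among ALL algebraic
   numbers of degree at most `d`,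
2. if the `|α_l|` are distinct and nonzero and `N + 2 ≤ M`, then for all but finitely many complex
   numbers `t` of which some power is rational (of any degree), and
3. if `|α_l| ≠ 0, 1` for all `l` and `N ≤ M` then for all but finitely many roots of unity `t`

and for ALL multipliers `w` the set `X_{t,w}` has no atypical intersection with the cosets `η H` of all
algebraic subgroups `H` of the torus by ALL points `η` whose coordinates are units of the integral
closure of `R_t`: every irreducible subset of `X_{t,w} ∩ η H` has dimension at most `dim H - r`. In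
particular (`H` the torus) all components of `X_{t,w}` have dimension at most `n - r`, and `X_{t,w}` does
not meet `η H` if `dim H < r`; since the torsion cosets are among the `η H`, the set `U(Y)` of the
problem is empty for all components `Y` of `X_{t,w}` of dimension `n - r`.

The finite exceptional set of the `t` does not depend on `w`, `η` and `H`. If `0 ∈ B` then the `η H`
contain the fibres over `t` of all the torsion cosets of the torus of dimension `n + 1` with coordinates
`(t, x)`, since the conditions `t ^ k x ^ a = ζ` describe a coset by a point whose coordinates are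
products of roots of unity and fractional powers of `t`; so the total space `{(t, x) | x ∈ X_{t,w(t)}}` of
the family, with arbitrary multipliers `w(t)`, has no atypical intersections with torsion cosets
over all but finitely many of the `t` considered.

The starting files `TropicallyGenericFamilies` and `RadicalMembers` are about the members with
`w_jβ = 1` and about the `η` which are units of the integral closure of a fixed finitely generated ring;
my hand-in `TwistedFamilies` is about multipliers in `R_t^×` itself and parameters `t` in a finitely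
generated field. The proof combines the arithmetic theorems of the starting files (prime factors of the
values at `α_l` of the minimal polynomial of `t`), the local criterion, and the fact that at a place
where `t` is near to `α_l` all units of the integral closure of `R_t` have the value `1`.
-/

set_option autoImplicit false

namespace Pool.Agent.Results.MP_c95b3b_ag.AlgebraicParameters

open Pool.Agent.Results.MP_c95b3b_ag.FinitelyGeneratedFields (InGeneralPosition)
open Pool.Agent.Results.MP_b7926e_nt.NoAtypical (coset idealOf dim)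

variable {n m : ℕ}

/-- The member `X_{t,w}` of the family: the points of the torus at which all the Laurent polynomials
`∑_β w_jβ c_jβ(t) x^β` vanish. -/
def member (A : Fin m → Finset (Fin n → ℤ)) (c : Fin m → (Fin n → ℤ) → Polynomial ℂ) (t : ℂ)
    (w : Fin m → (Fin n → ℤ) → ℂ) : Set (Fin n → ℂ) :=
  {x | (∀ i, x i ≠ 0) ∧
    ∀ j, ∑ β ∈ A j, w j β * Polynomial.aeval t (c j β) * ∏ i, x i ^ β i = 0}

/-- `F`, `t` and the numbers `1 / (t - b)`, `b ∈ B`: the generators of the ring `R_t`. -/
def generators (F B : Finset ℂ) (t : ℂ) : Set ℂ :=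
  insert t ((F : Set ℂ) ∪ (fun b => (t - b)⁻¹) '' (B : Set ℂ))

/-- `z` is a unit of the integral closure of `R_t` in `ℂ`. -/
def IsUnitAt (F B : Finset ℂ) (t z : ℂ) : Prop :=
  z ≠ 0 ∧ IsIntegral (Algebra.adjoin ℤ (generators F B t)) z ∧
    IsIntegral (Algebra.adjoin ℤ (generators F B t)) z⁻¹

/-- Some member `X_{t,w}` over `t` with multipliers `w` which are units of the integral closure of `R_t`
has an atypical intersection with a coset `η H` by a point `η` whose coordinates are units of the
integral closure of `R_t`: an irreducible subset `X` of dimension larger than `dim H - r`. Here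
`η H = {y | y ^ a = η ^ a for all a in Λ}` and `dim H = n - rank Λ`. -/
def SomeAtypical (r : ℕ) (F B : Finset ℂ) (A : Fin m → Finset (Fin n → ℤ))
    (c : Fin m → (Fin n → ℤ) → Polynomial ℂ) (t : ℂ) : Prop :=
  ∃ w : Fin m → (Fin n → ℤ) → ℂ, (∀ j, ∀ β ∈ A j, IsUnitAt F B t (w j β)) ∧
    ∃ (Λ : Submodule ℤ (Fin n → ℤ)) (η : Fin n → ℂ), (∀ i, IsUnitAt F B t (η i)) ∧
      ∃ X : Set (Fin n → ℂ), X ⊆ member A c t w ∧ X ⊆ coset Λ η ∧ (idealOf X).IsPrime ∧
        ¬ dim X + (r : Cardinal) + (Module.finrank ℤ Λ : Cardinal) ≤ (n : Cardinal)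

/-- Families of subvarieties of the torus with multipliers and cosets given by arbitrary units of the
integral closure of `R_t`: over all but finitely many algebraic numbers `t` of degree at most `d`
(radical numbers, roots of unity) no member has an atypical intersection. -/
theorem result {M : ℕ} (r N : ℕ) (A : Fin m → Finset (Fin n → ℤ)) (hA : ∀ j, (A j).Nonempty)
    (c : Fin m → (Fin n → ℤ) → Polynomial ℂ) (hc : ∀ j, ∀ β ∈ A j, c j β ≠ 0)
    (α : Fin M → ℚ) (hgen : InGeneralPosition r N A c fun l => {((α l : ℚ) : ℂ)})
    (F B : Finset ℂ) (hB : ∀ l, ((α l : ℚ) : ℂ) ∉ B) :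
    (Function.Injective α → ∀ d : ℕ, N + 2 * d ≤ M →
      {t : ℂ | (∃ P : Polynomial ℤ, P ≠ 0 ∧ P.natDegree ≤ d ∧ Polynomial.aeval t P = 0) ∧
        SomeAtypical r F B A c t}.Finite) ∧
    ((∀ l, α l ≠ 0) → (∀ l l', l ≠ l' → |α l| ≠ |α l'|) → N + 2 ≤ M →
      {t : ℂ | (∃ k : ℕ, 0 < k ∧ ∃ q : ℚ, t ^ k = (q : ℂ)) ∧
        SomeAtypical r F B A c t}.Finite) ∧
    ((∀ l, α l ≠ 0 ∧ |α l| ≠ 1) → N ≤ M →
      {t : ℂ | (∃ k : ℕ, 0 < k ∧ t ^ k = 1) ∧ SomeAtypical r F B A c t}.Finite) := by
  classical
  obtain ⟨W, E₀, hE₀, hcrit⟩ := Pool.Agent.Q57.ZP.tor_crit_int r N A hA c hc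
    (fun l => {((α l : ℚ) : ℂ)}) hgen F B (fun l a ha => by
      rw [Finset.mem_singleton] at ha
      rw [ha]
      exact hB l)
  have hE : ∀ t, t ∉ ((Finset.univ.biUnion (fun l => ({((α l : ℚ) : ℂ)} : Finset ℂ)) : Finset ℂ) :
      Set ℂ) → IsAlgebraic ℤ t → (∃ f : Fin N → Fin M, Function.Injective f ∧
      ∀ l, ∃ a ∈ ({((α (f l) : ℚ) : ℂ)} : Finset ℂ), ¬ Pool.Agent.Y910.Z.Bad (W : Set ℂ) t a) →
      t ∉ {t | t ∉ E₀ ∧ SomeAtypical r F B A c t} := by
    rintro t - - hf ⟨ht, w, hw, Λ, η, hη, X, h1, h2, h3, h4⟩
    exact h4 (hcrit t ht hf w hw Λ η hη X h1 h2 h3)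
  obtain ⟨h1, h2, h3⟩ := Pool.Agent.Q57.ZP.fin_par (L := N) W
    (fun l => {((α l : ℚ) : ℂ)}) α (fun l => Finset.mem_singleton_self _) _ hE
  have key : ∀ Q : ℂ → Prop, {t : ℂ | Q t ∧ t ∈ {t | t ∉ E₀ ∧ SomeAtypical r F B A c t}}.Finite →
      {t : ℂ | Q t ∧ SomeAtypical r F B A c t}.Finite := by
    intro Q hQ
    refine (hQ.union hE₀).subset ?_
    rintro t ⟨ht1, ht2⟩
    by_cases h : t ∈ E₀
    · exact Or.inr h
    · exact Or.inl ⟨ht1, h, ht2⟩
  exact ⟨fun hinj d hM => key _ (h1 hinj d hM), fun h0 hd hM => key _ (h2 h0 hd hM),
    fun hne hM => key _ (h3 hne hM)⟩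

end Pool.Agent.Results.MP_c95b3b_ag.AlgebraicParameters
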