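import Pool.Agent.Q57.ZP.Unit
import Pool.Agent.Q77.ZP.Twist
import Pool.Agent.Q41.ZP.TropW

/-!
# MP_c95b3b_ag: Zilber's conjecture for ALL systems of Laurent polynomials in general position over the
integral closure `S_t` of the ring `R_t`, for all but finitely many elements `t` of a finitely
generated field

**Rings.** Let `F` be a finite set of complex numbers and `P ⊆ F`. For `t ∈ ℂ` let `R_t` (`ringR`) be
the ring generated by `F`, `t` and the numbers `1 / (t - b)`, `b ∈ P`, and let `S_t` be the INTEGRAL
CLOSURE of `R_t` in `ℂ`; it contains all algebraic integers. Let `D_1, …, D_M ⊆ F` be disjoint from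
`P`, and let `U` be their union.

**Systems.** Let `A_1, …, A_m ⊂ ℤ^n` be finite sets of exponents, `B_j ⊆ A_j`, let `e_jβ(α)` be natural
numbers, `α ∈ U`, and let `s_jβ ∈ S_t`, `β ∈ A_j`, be arbitrary (zero is allowed), units of `S_t` for
`β ∈ B_j`. They define the algebraic set `X ⊂ (ℂ^×)^n` (`zeros`) of the common zeros of the Laurent
polynomials `∑_β s_jβ ∏_{α ∈ U} (t - α)^(e_jβ(α)) x^β`, `β ∈ A_j`. The weak tropicalization `T_α`
(`WeakTrop`) is the set of the `v ∈ ℚ^n` such that for no `j` the minimum of the numbers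
`e_jβ(α) + β · v`, `β ∈ A_j`, is attained only once, at an element of `B_j`. (If `B_j = A_j` it is the
tropicalization. In general it is enough that `B_j` contains the vertices of the regular
subdivision given by `e_j(α)`, and the other coefficients do not matter.)

**Theorem.** Let `N` be a natural number.

1. If the union of any `M - N + 1` (or more) of the sets `D_l` has at least three elements, then for
   all but finitely many `t` in the field generated by `F`, and
2. if the union of any `M - N + 1` (or more) of the sets `D_l` has at least two elements, then for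
   all but finitely many `t` in the ring generated by `F`,

the following is true for ALL `n`, `m`, `r`, ALL supports `A_j ⊂ ℤ^n` and `B_j ⊆ A_j`, ALL exponents `e`
and ALL coefficients `s` as above (`AllGood`): if no linear subspace of `ℚ^n` of dimension less than
`r` meets `N` sets `T_α` for `α` in `N` different sets `D_l`, then `X` has no atypical intersection with
the torsion cosets, and more generally with the cosets `η H` of all algebraic subgroups `H` of the
torus by all points `η` whose coordinates are units of `S_t`: every irreducible subset of `X ∩ η H`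
has dimension at most `dim H - r`. In particular (`H` the torus) all components of `X` have dimension
at most `n - r`, and `X` does not meet `η H` if `dim H < r`; so the set `U(Y)` of the problem is empty
for all components `Y` of `X` of dimension `n - r`.

So one FINITE exceptional set is good for all systems at once, in any number of variables, of any
degrees, and with arbitrary coefficients in `S_t`; it depends only on `F`, `P`, `N` and the sets `D_l`.
Example: let `K` be a number field and `α_1, …, α_M ∈ K`,
`M = N + 2`. For all but finitely many `t ∈ K` and all algebraic sets `X_0 ⊂ (ℂ^×)^n` given by Laurent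
polynomials with algebraic integer coefficients which are units at the vertices of the Newton
polytopes, and all vectors `a_1, …, a_M ∈ ℤ^n` in general position with respect to the normal fans of
`X_0`, the translate of `X_0` by the point `∏_l (t - α_l)^(a_l)` has no atypical intersections.

The starting file `FinitelyGeneratedFields` and the hand-ins `TwistedFamilies`, `AlgebraicParameters` of
this problem treat one family of systems, the coefficients of which are given functions of `t`, times
units in the last two; the exceptional set belongs to the family. The hand-in `AllSystems` of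
`MP_b7926e_nt` has any number of parameters but an infinite exceptional set. The proof combines the
finiteness of the number of solutions of unit equations in finitely generated rings
(`Q57.ZP.Unit`, `Y910.Z`) with a local criterion (`Q41.ZP.critW`), a version of that of `Y199.ZF` in
which only the orders of the dominating coefficients are known.
-/

set_option autoImplicit false

namespace Pool.Agent.Results.MP_c95b3b_ag.AllSystemsFinite

open Pool.Agent.Results.MP_b7926e_nt.NoAtypical (coset idealOf dim)

/-- The ring `R_t` generated by `F`, `t` and the `1 / (t - b)`, `b ∈ P`. -/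
def ringR (F P : Finset ℂ) (t : ℂ) : Subring ℂ :=
  Subring.closure (insert t ((F : Set ℂ) ∪ (fun b => (t - b)⁻¹) '' (P : Set ℂ)))

/-- `z` is a unit of the integral closure of `R` in `ℂ`. -/
def IsUnitOver (R : Subring ℂ) (z : ℂ) : Prop :=
  z ≠ 0 ∧ IsIntegral R z ∧ IsIntegral R z⁻¹

/-- The algebraic subset of the torus defined by the Laurent polynomials `∑_β b_jβ x^β`. -/
def zeros {n m : ℕ} (A : Fin m → Finset (Fin n → ℤ)) (b : Fin m → (Fin n → ℤ) → ℂ) :
    Set (Fin n → ℂ) :=
  {x | (∀ i, x i ≠ 0) ∧ ∀ j, ∑ β ∈ A j, b j β * ∏ i, x i ^ β i = 0}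

/-- The weak tropicalization: the points `v` at which for no `j` the minimum of `e_jβ + β · v` over
`β ∈ A_j` is attained only once, at an element of `B_j`. -/
def WeakTrop {n m : ℕ} (A B : Fin m → Finset (Fin n → ℤ)) (e : Fin m → (Fin n → ℤ) → ℕ) :
    Set (Fin n → ℚ) :=
  {v | ∀ j, ∀ a ∈ B j, ∃ β ∈ A j, β ≠ a ∧
    (e j β : ℚ) + ∑ i, (β i : ℚ) * v i ≤ (e j a : ℚ) + ∑ i, (a i : ℚ) * v i}

/-- No linear space of dimension less than `r` meets `N` of the sets `T α` for elements `α` of `N`
different sets `D l`. -/
def InGeneralPosition (r N : ℕ) {n M : ℕ} (D : Fin M → Finset ℂ) (T : ℂ → Set (Fin n → ℚ)) :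
    Prop :=
  ∀ L : Submodule ℚ (Fin n → ℚ), Module.finrank ℚ L < r →
    ∀ l : Fin N → Fin M, Function.Injective l → ∀ α : Fin N → ℂ, (∀ i, α i ∈ D (l i)) →
      ∃ i, ∀ v ∈ L, v ∉ T (α i)

/-- `X` has no atypical intersection with the cosets of algebraic subgroups by points whose
coordinates are units over `R`: every irreducible subset `W` of `X ∩ η H` has dimension at most
`dim H - r`. Here `η H = {y | y ^ a = η ^ a for all a in Λ}` and `dim H = n - rank Λ`. -/
def NoAtypical {n : ℕ} (r : ℕ) (R : Subring ℂ) (X : Set (Fin n → ℂ)) : Prop :=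
  ∀ (Λ : Submodule ℤ (Fin n → ℤ)) (η : Fin n → ℂ), (∀ i, IsUnitOver R (η i)) →
    ∀ W : Set (Fin n → ℂ), W ⊆ X → W ⊆ coset Λ η → (idealOf W).IsPrime →
      dim W + (r : Cardinal) + (Module.finrank ℤ Λ : Cardinal) ≤ (n : Cardinal)

/-- All systems of Laurent polynomials over the integral closure of `R_t`, in any number of
variables, with coefficients divisible by given powers of the `t - α`, and some of them associated
to the products of these powers, so that the weak tropicalizations are in general position, have no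
atypical intersections. -/
def AllGood (N : ℕ) {M : ℕ} (F P : Finset ℂ) (D : Fin M → Finset ℂ) (t : ℂ) : Prop :=
  ∀ (n m r : ℕ) (A B : Fin m → Finset (Fin n → ℤ)) (e : ℂ → Fin m → (Fin n → ℤ) → ℕ)
    (s : Fin m → (Fin n → ℤ) → ℂ), (∀ j, B j ⊆ A j) →
    (∀ j, ∀ β ∈ A j, IsIntegral (ringR F P t) (s j β)) →
    (∀ j, ∀ β ∈ B j, IsUnitOver (ringR F P t) (s j β)) →
    InGeneralPosition r N D (fun α => WeakTrop A B (e α)) →
    NoAtypical r (ringR F P t)
      (zeros A fun j β => s j β * ∏ α ∈ Finset.univ.biUnion D, (t - α) ^ e α j β)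

theorem val_one (V : ValuationSubring ℂ) {t a b : ℂ} (h1 : V.valuation (t - a) < 1)
    (hab : a ≠ b) (h2 : a - b ∈ V) (h3 : (a - b)⁻¹ ∈ V) : V.valuation (t - b) = 1 := by
  have h4 : V.valuation (a - b) = 1 := by
    have e2 := (ValuationSubring.valuation_le_one_iff _ _).2 h2
    have e3 := (ValuationSubring.valuation_le_one_iff _ _).2 h3
    rw [map_inv₀] at e3
    have h4 : V.valuation (a - b) ≠ 0 := (Valuation.ne_zero_iff _).2 (sub_ne_zero.2 hab)
    exact le_antisymm e2 ((inv_le_one₀ (zero_lt_iff.2 h4)).1 e3)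
  have h6 : t - b = (t - a) + (a - b) := by ring
  rw [h6, Valuation.map_add_eq_of_lt_right _ (by rw [h4]; exact h1), h4]

/-- The places are good for all systems. -/
theorem good (N : ℕ) {M : ℕ} (F P : Finset ℂ)
    (hPF : P ⊆ F) (D : Fin M → Finset ℂ) (hD : ∀ l, D l ⊆ F)
    (hDP : ∀ l, Disjoint (D l) P) (W : Finset ℂ) (hFW : F ⊆ W)
    (hW : ∀ a ∈ F, ∀ b ∈ F, (a - b)⁻¹ ∈ W) (t : ℂ) (ht : t ∉ Finset.univ.biUnion D)
    (f : Fin N → Fin M) (hf : Function.Injective f)
    (h : ∀ l, ∃ a ∈ D (f l), ¬ Pool.Agent.Y910.Z.Bad (W : Set ℂ) t a) :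
    AllGood N F P D t := by
  classical
  intro n m r A B e s hBA hsA hsB hgen Λs η hη Z hZX hZT hZ
  choose a ha hbad using h
  have haF : ∀ l, a l ∈ F := fun l => hD _ (ha l)
  have haU : ∀ l, a l ∈ Finset.univ.biUnion D := fun l =>
    Finset.mem_biUnion.2 ⟨f l, Finset.mem_univ _, ha l⟩
  have hUF : ∀ α ∈ Finset.univ.biUnion D, α ∈ F := by
    intro α hα
    obtain ⟨l, -, hl⟩ := Finset.mem_biUnion.1 hα
    exact hD l hl
  have hplace : ∀ l, ∃ V : ValuationSubring ℂ, V.valuation (t - a l) < 1 ∧ ∀ z ∈ W, z ∈ V := by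
    intro l
    obtain ⟨V, h1, h2, -⟩ := Pool.Agent.Y910.Z.exists_place (k := ℂ) (W : Set ℂ) (t := t)
      (a := a l) (hFW (haF l)) (hbad l) (Empty.elim : Empty → ℂ)
      (algebraicIndependent_empty_type_iff.2 (algebraMap ℂ ℂ).injective)
    exact ⟨V, h1, h2⟩
  choose V hV1 hV2 using hplace
  have hFV : ∀ l, ∀ z ∈ F, z ∈ V l := fun l z hz => hV2 l z (hFW hz)
  have htV : ∀ l, t ∈ V l := by
    intro l
    have h1 : t - a l ∈ V l := (ValuationSubring.valuation_le_one_iff _ _).1 (hV1 l).le
    have h2 := (V l).add_mem _ _ h1 (hFV l _ (haF l))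
    rwa [sub_add_cancel] at h2
  have hval : ∀ l, ∀ b ∈ F, b ≠ a l → (V l).valuation (t - b) = 1 := by
    intro l b hb hne
    exact val_one (V l) (hV1 l) hne.symm (sub_mem (hFV l _ (haF l)) (hFV l _ hb))
      (hV2 l _ (hW _ (haF l) _ hb))
  have hRV : ∀ l, ∀ z ∈ ringR F P t, z ∈ V l := by
    intro l
    have h1 : ringR F P t ≤ (V l).toSubring := by
      refine Subring.closure_le.2 fun z hz => ?_
      rcases hz with rfl | hz | ⟨b, hb, rfl⟩
      · exact htV l
      · exact hFV l z hz
      · refine (ValuationSubring.valuation_le_one_iff _ _).1 ?_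
        have hne : b ≠ a l := by
          rintro rfl
          exact Finset.disjoint_left.1 (hDP _) (ha l) hb
        rw [map_inv₀, hval l b (hPF hb) hne, inv_one]
    exact fun z hz => h1 hz
  have hint : ∀ l (z : ℂ), IsIntegral (ringR F P t) z → (V l).valuation z ≤ 1 := fun l z hz =>
    (ValuationSubring.valuation_le_one_iff _ _).2
      (Pool.Agent.Q77.ZP.mem_V_of_int (V l) _ (hRV l) hz)
  have hunit : ∀ l (z : ℂ), IsUnitOver (ringR F P t) z → (V l).valuation z = 1 := by
    rintro l z ⟨hz, h1, h2⟩
    refine le_antisymm (hint l _ h1) ?_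
    have h3 := hint l _ h2
    rw [map_inv₀] at h3
    have h4 : (V l).valuation z ≠ 0 := (Valuation.ne_zero_iff _).2 hz
    exact (inv_le_one₀ (zero_lt_iff.2 h4)).1 h3
  have hprod : ∀ l j β, (V l).valuation (∏ α ∈ Finset.univ.biUnion D, (t - α) ^ e α j β) =
      (V l).valuation (t - a l) ^ ((e (a l) j β : ℕ) : ℤ) := by
    intro l j β
    rw [map_prod, ← Finset.prod_erase_mul _ _ (haU l), Finset.prod_eq_one,
      one_mul, map_pow, zpow_natCast]
    intro α hα
    rw [map_pow, hval l α (hUF _ (Finset.mem_of_mem_erase hα)) (Finset.ne_of_mem_erase hα),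
      one_pow]
  refine Pool.Agent.Q41.ZP.critW A B hBA
    (fun j β => s j β * ∏ α ∈ Finset.univ.biUnion D, (t - α) ^ e α j β) V
    (fun l => t - a l) (fun l => sub_ne_zero.2 fun h0 => ht (h0 ▸ haU l)) hV1
    (fun l j β => (e (a l) j β : ℤ)) (fun l j β hβ => ?_) (fun l j β hβ => ?_)
    (fun L hL => ?_) Λs η (fun i => (hη i).1) (fun l i => hunit l _ (hη i)) Z hZX hZT hZ
  · rw [map_mul, hunit l _ (hsB j β hβ), one_mul, hprod]
  · rw [map_mul, hprod]
    exact mul_le_of_le_one_left zero_le (hint l _ (hsA j β hβ))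
  · obtain ⟨l, hl⟩ := hgen L hL f hf a ha
    refine ⟨l, fun v hv h1 => hl v hv fun j a ha => ?_⟩
    obtain ⟨β, h2, h3, h4⟩ := h1 j a ha
    refine ⟨β, h2, h3, ?_⟩
    push_cast at h4
    exact h4

/-- No atypical intersections for all systems of Laurent polynomials in general position over the
integral closure of the ring `R_t`, for all but finitely many elements `t` of a finitely generated
field (ring). -/
theorem result (N : ℕ) {M : ℕ} (F P : Finset ℂ) (hPF : P ⊆ F) (D : Fin M → Finset ℂ)
    (hD : ∀ l, D l ⊆ F) (hDP : ∀ l, Disjoint (D l) P) :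
    ((∀ I : Finset (Fin M), M < I.card + N → 3 ≤ (I.biUnion D).card) →
      {t : ℂ | t ∈ Subfield.closure (F : Set ℂ) ∧ ¬ AllGood N F P D t}.Finite) ∧
    ((∀ I : Finset (Fin M), M < I.card + N → 2 ≤ (I.biUnion D).card) →
      {t : ℂ | t ∈ Subring.closure (F : Set ℂ) ∧ ¬ AllGood N F P D t}.Finite) := by
  classical
  let W : Finset ℂ := F ∪ (F ×ˢ F).image fun x => (x.1 - x.2)⁻¹
  have hFW : F ⊆ W := Finset.subset_union_left
  have hW : ∀ a ∈ F, ∀ b ∈ F, (a - b)⁻¹ ∈ W := fun a ha b hb =>
    Finset.mem_union_right _ (Finset.mem_image.2 ⟨(a, b), Finset.mem_product.2 ⟨ha, hb⟩, rfl⟩)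
  refine ⟨fun h3 => ?_, fun h2 => ?_⟩
  · refine Pool.Agent.Q57.ZP.finite_of_bad N W D (fun t => t ∈ Subfield.closure (F : Set ℂ))
      (fun I hI => Pool.Agent.Q57.ZP.fin_bad_field W F D I (h3 I hI))
      {t : ℂ | ¬ AllGood N F P D t} _ (Finset.univ.biUnion D).finite_toSet ?_
    rintro t ht ⟨f, hf, h⟩ hbad
    exact hbad (good N F P hPF D hD hDP W hFW hW t ht f hf h)
  · refine Pool.Agent.Q57.ZP.finite_of_bad N W D (fun t => t ∈ Subring.closure (F : Set ℂ))
      (fun I hI => Pool.Agent.Q57.ZP.fin_bad_ring W F D I (h2 I hI))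
      {t : ℂ | ¬ AllGood N F P D t} _ (Finset.univ.biUnion D).finite_toSet ?_
    rintro t ht ⟨f, hf, h⟩ hbad
    exact hbad (good N F P hPF D hD hDP W hFW hW t ht f hf h)

end Pool.Agent.Results.MP_c95b3b_ag.AllSystemsFinite
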