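import Pool.Agent.Q41.ZP.Count2
import Pool.Agent.Q41.ZP.Place
import Pool.Agent.Results.MP_c95b3b_ag.TropicallyGenericFamilies

/-!
# MP_c95b3b_ag: Zilber's conjecture for all but `O(H^(q - 1 + ε))` integral members of families of
subvarieties of tori with any number `q` of parameters

**Families.** Let `A_1, …, A_m ⊂ ℤ^n` be arbitrary finite nonempty sets of exponents, let
`c_jβ ∈ ℤ[t_1, …, t_q]`, `β ∈ A_j`, be nonzero polynomials in `q` parameters and `a_jβ` arbitrary
nonzero complex numbers. For an integral point `t` of the parameter space let `X_t ⊂ (ℂ^×)^n` be the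
algebraic set defined by the Laurent polynomials `f_j = ∑_β a_jβ c_jβ(t) x^β`, `j ≤ m` (`member`).

**Tropicalization.** Let `f_0, …, f_M ∈ ℤ[t_1, …, t_q]` be irreducible nonconstant polynomials, none of
which divides another, and let `ord_l (c_jβ)` be the multiplicity of the factor `f_l` in `c_jβ`. The
tropicalization of the family along the hypersurface `f_l = 0` of the parameter space is the set
`Trop_l` of the `w ∈ ℚ^n` such that for all `j` the minimum of the numbers
`ord_l (c_jβ) + β · w`, `β ∈ A_j`, is attained at least twice.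

**Theorem.** Suppose that no linear subspace of `ℚ^n` of dimension less than `r` meets all the sets
`Trop_0, …, Trop_M`. Then for every `ε > 0`, for all but `O(H^(q - 1 + ε))` of the integral points `t`
of the parameter space with `max |t_i| ≤ H` (in particular for 100% of them)
the set `X_t` has no atypical intersection with the torsion cosets, and more generally
with the cosets `η H` of all algebraic subgroups `H` of the torus by all points `η` whose
coordinates are units of the integral closure of `ℤ[Γ]` in `ℂ`, where `Γ` is any given finite set of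
complex numbers (`Γ = ∅`: algebraic units): every irreducible subset of `X_t ∩ η H` has dimension at
most `dim H - r`. In particular (`H` the torus) all components of `X_t` have dimension at most
`n - r`, and `X_t` does not meet `η H` if `dim H < r`; so the set `U(Y)` of the problem is empty for
all components `Y` of `X_t` of dimension `n - r`.

For complete intersections, `m = r`, the condition holds for almost all systems of orders, see
`general_position` in the starting file `TropicallyGenericFamilies`.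

The starting files treat one-parameter families (degenerate members at points of the line), translates
of a fixed variety and systems whose coefficients are `S`-units. Here the parameter space is an affine
space of any dimension, and the family degenerates along hypersurfaces, which need not have any
rational point; for example `c_jβ = ∏_l f_l ^ (e_l j β)` with norm forms `f_l`.

The exponent `q - 1` is the best possible: the hypersurfaces `f_l = 0` themselves can contain as many
integral points.

The proof combines the local criterion of `Y199` with a count (`Q41.ZP.Count2`): for all but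
`O(H^(q - 1 + ε))` integral points `t` the values `f_l (t)` have prime divisors `p_l` above any bound
which divide neither the other `f_l' (t)` nor the cofactors of the powers of `f_l` in the `c_jβ`.
-/

namespace Pool.Agent.Results.MP_c95b3b_ag.MultiparameterFamilies

open Pool.Agent.Results.MP_c95b3b_ag.TropicallyGenericFamilies (Trop InGeneralPosition IsUnitOver
  NoAtypical)

variable {n m q : ℕ}

/-- The member `X_t` of the family: the points of the torus at which all the Laurent polynomials
`∑_β a_jβ c_jβ(t) x^β` vanish. -/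
def member (A : Fin m → Finset (Fin n → ℤ)) (a : Fin m → (Fin n → ℤ) → ℂ)
    (c : Fin m → (Fin n → ℤ) → MvPolynomial (Fin q) ℤ) (t : Fin q → ℤ) : Set (Fin n → ℂ) :=
  {x | (∀ i, x i ≠ 0) ∧
    ∀ j, ∑ β ∈ A j, (a j β * ((MvPolynomial.eval t (c j β) : ℤ) : ℂ)) * ∏ i, x i ^ β i = 0}

/-- The multiplicity of the factor `f` in the coefficient `c_jβ`. -/
noncomputable def order (c : Fin m → (Fin n → ℤ) → MvPolynomial (Fin q) ℤ)
    (f : MvPolynomial (Fin q) ℤ) (j : Fin m) (β : Fin n → ℤ) : ℤ :=
  (multiplicity f (c j β) : ℤ)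

/-- Zilber's conjecture without atypical intersections for all but few integral members of
multi-parameter families of subvarieties of the torus. -/
theorem result {M : ℕ} (r : ℕ) (A : Fin m → Finset (Fin n → ℤ)) (hA : ∀ j, (A j).Nonempty)
    (a : Fin m → (Fin n → ℤ) → ℂ) (ha : ∀ j, ∀ β ∈ A j, a j β ≠ 0)
    (c : Fin m → (Fin n → ℤ) → MvPolynomial (Fin q) ℤ) (hc : ∀ j, ∀ β ∈ A j, c j β ≠ 0)
    (f : Fin (M + 1) → MvPolynomial (Fin q) ℤ) (hf : ∀ l, Irreducible (f l))
    (hf1 : ∀ l, (f l).totalDegree ≠ 0) (hf2 : ∀ l l', l ≠ l' → ¬ f l ∣ f l')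
    (hgen : InGeneralPosition r (M + 1) fun l => Trop A (order c (f l)))
    (Γ : Set ℂ) (hΓ : Γ.Finite) (ε : ℝ) (hε : 0 < ε) :
    ∃ C : ℝ, ∀ H : ℕ, 1 ≤ H → (Set.ncard {t : Fin q → ℤ | (∀ i, |t i| ≤ (H : ℤ)) ∧
      ¬ NoAtypical r Γ (member A a c t)} : ℝ) ≤ C * (H : ℝ) ^ ((q : ℝ) - 1 + ε) := by
  classical
  -- the cofactors
  have hq : ∀ (l : Fin (M + 1)) (x : Σ j : Fin m, {β // β ∈ A j}),
      ∃ g : MvPolynomial (Fin q) ℤ, c x.1 x.2 = f l ^ multiplicity (f l) (c x.1 x.2) * g ∧
        ¬ f l ∣ g := fun l x =>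
    (FiniteMultiplicity.of_not_isUnit (hf l).not_isUnit
      (hc x.1 x.2 x.2.2)).exists_eq_pow_mul_and_not_dvd
  choose g hg1 hg2 using hq
  -- the places
  let W1 : Set ℂ := Set.range fun x : Σ j : Fin m, {β // β ∈ A j} => a x.1 x.2
  have hW1 : W1.Finite := Set.finite_range _
  obtain ⟨D, hD⟩ := Pool.Agent.Q41.ZP.exists_place_prime (W1 ∪ ((fun z => z⁻¹) '' W1 ∪ Γ))
    (hW1.union ((hW1.image _).union hΓ))
  obtain ⟨C, hC⟩ := Pool.Agent.Q41.ZP.count_sym2 f hf hf1 hf2 g hg2 D hε
  refine ⟨C, fun H hH => le_trans ?_ (hC H hH)⟩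
  rw [Nat.cast_le]
  refine Set.ncard_le_ncard ?_ ((Fintype.piFinset fun _ : Fin q =>
    Finset.Icc (-(H : ℤ)) H).finite_toSet.subset fun t ht => ?_)
  swap
  · exact Fintype.mem_piFinset.2 fun j => Finset.mem_Icc.2 (abs_le.1 (ht.1 j))
  rintro t ⟨ht1, ht3⟩
  refine ⟨ht1, ?_⟩
  rintro ⟨hf0, p, hp1, hp2, hp3⟩
  apply ht3
  intro Λ η hη B hBX hBT hB
  choose V hV1 hV2 using fun l => hD (p l) (hp1 l).1 (hp1 l).2.1
  have hval : ∀ l j, ∀ β ∈ A j, (V l).valuation (a j β * ((MvPolynomial.eval t (c j β) : ℤ) : ℂ)) =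
      (V l).valuation ((MvPolynomial.eval t (f l) : ℤ) : ℂ) ^ order c (f l) j β := by
    intro l j β hβ
    have h1 : (V l).valuation (a j β) = 1 := by
      have h2 : (V l).valuation (a j β) ≤ 1 := (ValuationSubring.valuation_le_one_iff _ _).2
        (hV2 l _ (Or.inl ⟨⟨j, β, hβ⟩, rfl⟩))
      have h3 : (V l).valuation (a j β)⁻¹ ≤ 1 := (ValuationSubring.valuation_le_one_iff _ _).2
        (hV2 l _ (Or.inr (Or.inl ⟨_, ⟨⟨j, β, hβ⟩, rfl⟩, rfl⟩)))
      rw [map_inv₀] at h3
      refine le_antisymm h2 ?_
      have h6 : (V l).valuation (a j β) ≠ 0 := (Valuation.ne_zero_iff _).2 (ha j β hβ)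
      exact (inv_le_one₀ (zero_lt_iff.2 h6)).1 h3
    have h2 : ((MvPolynomial.eval t (c j β) : ℤ) : ℂ) =
        ((MvPolynomial.eval t (f l) : ℤ) : ℂ) ^ multiplicity (f l) (c j β) *
          ((MvPolynomial.eval t (g l ⟨j, β, hβ⟩) : ℤ) : ℂ) := by
      have h3 := congrArg (fun P => ((MvPolynomial.eval t P : ℤ) : ℂ)) (hg1 l ⟨j, β, hβ⟩)
      simp only [map_mul, map_pow, Int.cast_mul, Int.cast_pow] at h3
      exact h3
    rw [map_mul, h1, one_mul, h2, map_mul, map_pow,
      Pool.Agent.Q41.ZP.v_int_eq_one (hp1 l).1 (hV1 l) (hp3 l ⟨j, β, hβ⟩), mul_one, order,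
      zpow_natCast]
  refine Pool.Agent.Y199.ZF.crit A hA
    (fun j β => a j β * ((MvPolynomial.eval t (c j β) : ℤ) : ℂ)) (fun j β hβ h0 => ?_) V
    (fun l => ((MvPolynomial.eval t (f l) : ℤ) : ℂ)) (fun l => Int.cast_ne_zero.2 (hf0 l))
    (fun l => Pool.Agent.Q41.ZP.v_int_lt (hV1 l) (hp1 l).2.2)
    (fun l => order c (f l)) hval (fun L hL => ?_) Λ η (fun i => (hη i).1) (fun l i => ?_) B hBX
    hBT hB
  · have h1 := hval 0 j β hβ
    rw [h0, map_zero] at h1
    have h2 : (V 0).valuation ((MvPolynomial.eval t (f 0) : ℤ) : ℂ) ≠ 0 :=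
      (Valuation.ne_zero_iff _).2 (Int.cast_ne_zero.2 (hf0 0))
    exact zpow_ne_zero _ h2 h1.symm
  · obtain ⟨l, -, h1⟩ := hgen L hL Finset.univ (by rw [Finset.card_univ, Fintype.card_fin])
    exact ⟨l, h1⟩
  · -- units over `Γ`
    have h3 : ∀ w : ℂ, IsIntegral (Algebra.adjoin ℤ Γ) w → (V l).valuation w ≤ 1 := by
      intro w hw
      have h4 : algebraMap ℂ ℂ '' Γ = Γ := by
        rw [Algebra.algebraMap_self, RingHom.coe_id, Set.image_id]
      refine Pool.Agent.Y152.BD.v_le_of_int (k := ℂ) Γ (V l)
        (fun x hx => hV2 l x (Or.inr (Or.inr hx))) ?_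
      rw [h4]
      exact hw
    obtain ⟨hz0, h1, h2⟩ := hη i
    refine le_antisymm (h3 _ h1) ?_
    have h5 := h3 _ h2
    rw [map_inv₀] at h5
    have h6 : (V l).valuation (η i) ≠ 0 := (Valuation.ne_zero_iff _).2 hz0
    exact (inv_le_one₀ (zero_lt_iff.2 h6)).1 h5

end Pool.Agent.Results.MP_c95b3b_ag.MultiparameterFamilies
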