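import Pool.Agent.Q57.ZP.Tor

/-!
# MP_c95b3b_ag: Zilber's conjecture for families of subvarieties of tori all of whose coefficients are
multiplied by arbitrary units

**Families.** Let `A_1, …, A_m ⊂ ℤ^n` be arbitrary finite nonempty sets of exponents, and let
`c_jβ ∈ ℂ[t]` be nonzero polynomials, `β ∈ A_j`. For `t ∈ ℂ` and arbitrary numbers `w_jβ ≠ 0`, one for
every monomial, let `X_{t,w} ⊂ (ℂ^×)^n` be the algebraic set defined by the Laurent polynomials
`f_j = ∑_β w_jβ c_jβ(t) x^β`, `j ≤ m` (`member`). So we consider families with `1 + ∑ |A_j|`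
parameters.

**Multipliers.** Let `F` and `B` be finite sets of complex numbers, and let `R_t` be the ring generated
by `F`, `t` and the numbers `1 / (t - b)`, `b ∈ B`. The multipliers `w_jβ` are arbitrary units of
`R_t`, independent of each other. Examples: arbitrary units of the ring generated by `F`, for instance
arbitrary `S`-units if `F` generates a ring of `S`-integers; arbitrary powers `(t - b) ^ k`, `b ∈ B`,
`k ∈ ℤ`, so that the degrees of the coefficients as functions of `t` are not bounded; and arbitrary
powers of `v`, if `t = u / v` with `u`, `v` in the ring generated by `F` and `a u + e v = 1` with `a`, `e`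
in this ring (then `v` and `1 / v = a t + e` are in `R_t`), so that the coefficients can be arbitrary
forms of any degrees in `u` and `v`, instead of polynomials in `t = u / v`.

**Tropicalization.** For a complex number `α` the tropicalization of the family at `t = α` is the set
`Trop_α` of the `w ∈ ℚ^n` such that for all `j` the minimum of the numbers
`ord_α (c_jβ) + β · w`, `β ∈ A_j`, is attained at least twice.

**Theorem.** Let `D_1, …, D_M` be finite sets of complex numbers, disjoint from `B`, and suppose that
no linear subspace of `ℚ^n` of dimension less than `r` meets all the sets `Trop_{α_l}`, `l ∈ S`, if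
`S` has `N` elements and `α_l` is in `D_l`.

1. If the union of any `M - N + 1` (or more) of the sets `D_l` has at least three elements then for
   all but finitely many `t` in the field generated by `F` and for ALL multipliers `w` in `R_t^×`, and
2. if the union of any `M - N + 1` (or more) of the sets `D_l` has at least two elements, then for
   all but finitely many `t` in the ring generated by `F` and ALL multipliers `w` in `R_t^×`,

the set `X_{t,w}` has no atypical intersection with the torsion cosets, and more generally with the
cosets `η H` of all algebraic subgroups `H` of the torus by all points `η` whose coordinates are units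
of the integral closure of `ℤ[Γ]` in `ℂ`, where `Γ` is any given finite set of complex numbers: every
irreducible subset of `X_{t,w} ∩ η H` has dimension at most `dim H - r`. In particular all components of
`X_{t,w}` have dimension at most `n - r`, and `X_{t,w}` does not meet `η H` if `dim H < r`; so the set
`U(Y)` of the problem is empty for all components `Y` of `X_{t,w}` of dimension `n - r`.

The finite exceptional set of the `t` does not depend on the multipliers. The starting file
`FinitelyGeneratedFields` is the case that all `w_jβ = 1` (one parameter), and the starting file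
`SUnitSystems` is about almost all systems whose coefficients are `S`-units. The proof combines the
local criterion of the starting files with the remark that at the places where `t` is near to an
element of `D_l` all units of `R_t` have the value `1`.
-/

set_option autoImplicit false

namespace Pool.Agent.Results.MP_c95b3b_ag.TwistedFamilies

open Pool.Agent.Results.MP_c95b3b_ag.FinitelyGeneratedFields (NoAtypical InGeneralPosition)

variable {n m : ℕ}

/-- The member `X_{t,w}` of the family: the points of the torus at which all the Laurent polynomials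
`∑_β w_jβ c_jβ(t) x^β` vanish. -/
def member (A : Fin m → Finset (Fin n → ℤ)) (c : Fin m → (Fin n → ℤ) → Polynomial ℂ) (t : ℂ)
    (w : Fin m → (Fin n → ℤ) → ℂ) : Set (Fin n → ℂ) :=
  {x | (∀ i, x i ≠ 0) ∧
    ∀ j, ∑ β ∈ A j, w j β * Polynomial.aeval t (c j β) * ∏ i, x i ^ β i = 0}

/-- The ring `R_t` generated by `F`, `t` and the `1 / (t - b)`, `b ∈ B`. -/
def ringOf (F B : Finset ℂ) (t : ℂ) : Subring ℂ :=
  Subring.closure (insert t ((F : Set ℂ) ∪ (fun b => (t - b)⁻¹) '' (B : Set ℂ)))

/-- All the multipliers are units of `R_t`. -/
def Multipliers (F B : Finset ℂ) (t : ℂ) (A : Fin m → Finset (Fin n → ℤ))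
    (w : Fin m → (Fin n → ℤ) → ℂ) : Prop :=
  ∀ j, ∀ β ∈ A j, w j β ≠ 0 ∧ w j β ∈ ringOf F B t ∧ (w j β)⁻¹ ∈ ringOf F B t

/-- Families of subvarieties of the torus with arbitrary unit multipliers of all coefficients: only
for finitely many parameters `t` in a finitely generated field (or ring) there is a vector of
multipliers for which the member has an atypical intersection. -/
theorem result {M : ℕ} (r N : ℕ) (A : Fin m → Finset (Fin n → ℤ)) (hA : ∀ j, (A j).Nonempty)
    (c : Fin m → (Fin n → ℤ) → Polynomial ℂ) (hc : ∀ j, ∀ β ∈ A j, c j β ≠ 0)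
    (D : Fin M → Finset ℂ) (hgen : InGeneralPosition r N A c D)
    (Γ : Set ℂ) (hΓ : Γ.Finite) (F B : Finset ℂ) (hB : ∀ l, ∀ a ∈ D l, a ∉ B) :
    ((∀ I : Finset (Fin M), M < I.card + N → 3 ≤ (I.biUnion D).card) →
      {t : ℂ | t ∈ Subfield.closure (F : Set ℂ) ∧
        ∃ w, Multipliers F B t A w ∧ ¬ NoAtypical r Γ (member A c t w)}.Finite) ∧
    ((∀ I : Finset (Fin M), M < I.card + N → 2 ≤ (I.biUnion D).card) →
      {t : ℂ | t ∈ Subring.closure (F : Set ℂ) ∧
        ∃ w, Multipliers F B t A w ∧ ¬ NoAtypical r Γ (member A c t w)}.Finite) := by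
  obtain ⟨W, E₀, hE₀, hFW, hcrit⟩ := Pool.Agent.Q57.ZP.tor_crit r N A hA c hc D hgen Γ hΓ F B hB
  have hE : ∀ t, t ∉ E₀ → (∃ f : Fin N → Fin M, Function.Injective f ∧
      ∀ l, ∃ a ∈ D (f l), ¬ Pool.Agent.Y910.Z.Bad (W : Set ℂ) t a) →
      t ∉ {t | ∃ w, Multipliers F B t A w ∧ ¬ NoAtypical r Γ (member A c t w)} := by
    rintro t ht hf ⟨w, hw, hno⟩
    refine hno (hcrit t ht hf w fun j β hβ => ?_)
    obtain ⟨h1, h2, h3⟩ := hw j β hβ
    exact Pool.Agent.Q57.ZP.UnitOf.mono (Pool.Agent.Q57.ZP.gens_mono hFW t) ⟨h1, h2, h3⟩
  refine ⟨fun h => ?_, fun h => ?_⟩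
  · exact Pool.Agent.Q57.ZP.finite_of_bad N W D _
      (fun I hI => Pool.Agent.Q57.ZP.fin_bad_field W F D I (h I hI)) _ E₀ hE₀ hE
  · exact Pool.Agent.Q57.ZP.finite_of_bad N W D _
      (fun I hI => Pool.Agent.Q57.ZP.fin_bad_ring W F D I (h I hI)) _ E₀ hE₀ hE

end Pool.Agent.Results.MP_c95b3b_ag.TwistedFamilies
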